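import Pool.Agent.TH150.GR.G1
import Pool.Agent.TH55.GR.Hf
import Pool.Agent.TH959.GR.G3
import Pool.Agent.TH75.GR.G4
import Pool.Agent.TH952.GR.Basics
import Pool.Agent.TH241.GR.G0b

/-!
# Hilbert functions of points and curves
-/

set_option autoImplicit false

open MvPolynomial Module Filter Topology

namespace Pool.Agent.TH279.GR.G5

variable {a b : ℕ}

open Pool.Agent.TH279.GR.G0a Pool.Agent.TH279.GR.G1 Pool.Agent.TH279.GR.G2 Pool.Agent.TH279.GR.G3
  Pool.Agent.TH279.GR.G4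

namespace Aux5

/-! ### auxiliary lemmas -/

theorem hf_top (u v : ℕ) : hf (⊤ : Ideal (Co a b)) u v = 0 := by
  unfold hf
  have h : (bh a b u v).map (Ideal.Quotient.mkₐ ℂ (⊤ : Ideal (Co a b))).toLinearMap = ⊥ := by
    rw [eq_bot_iff]
    rintro y ⟨x, _, rfl⟩
    rw [Submodule.mem_bot]
    exact Ideal.Quotient.eq_zero_iff_mem.2 trivial
  rw [h]
  exact finrank_bot ℂ _

/-- a form of bidegree `(1, 0)` is a linear combination of the `x_i` -/
theorem mem_of_inl {Q : Ideal (Co a b)} (h : ∀ i, (X (Sum.inl i) : Co a b) ∈ Q) :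
    bh a b 1 0 ≤ Q.restrictScalars ℂ := by
  intro f hf
  have hf' : IsWeightedHomogeneous (wt a b) f (1, 0) := hf
  rw [Submodule.restrictScalars_mem, f.as_sum]
  refine Q.sum_mem fun d hd => ?_
  have h1 := hf' (mem_support_iff.1 hd)
  rw [Finsupp.weight_apply, Finsupp.sum_fintype _ _ (fun i => by rw [zero_smul])] at h1
  have h2 : ∑ i : Fin (a + 1), d (Sum.inl i) = 1 := by
    have h3 := congrArg Prod.fst h1
    rw [Fintype.sum_sum_type] at h3
    simpa [wt, Prod.fst_sum] using h3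
  obtain ⟨i, hi⟩ : ∃ i : Fin (a + 1), d (Sum.inl i) ≠ 0 := by
    by_contra hcon
    push Not at hcon
    rw [Finset.sum_eq_zero fun i _ => hcon i] at h2
    exact zero_ne_one h2
  have h4 : monomial d (coeff d f) = monomial (d - Finsupp.single (Sum.inl i) 1) (coeff d f) *
      X (Sum.inl i) := by
    rw [X, monomial_mul, mul_one, tsub_add_cancel_of_le]
    rw [Finsupp.single_le_iff]
    exact Nat.one_le_iff_ne_zero.2 hi
  rw [h4]
  exact Q.mul_mem_left _ (h i)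

theorem mem_of_inr {Q : Ideal (Co a b)} (h : ∀ i, (X (Sum.inr i) : Co a b) ∈ Q) :
    bh a b 0 1 ≤ Q.restrictScalars ℂ := by
  intro f hf
  have hf' : IsWeightedHomogeneous (wt a b) f (0, 1) := hf
  rw [Submodule.restrictScalars_mem, f.as_sum]
  refine Q.sum_mem fun d hd => ?_
  have h1 := hf' (mem_support_iff.1 hd)
  rw [Finsupp.weight_apply, Finsupp.sum_fintype _ _ (fun i => by rw [zero_smul])] at h1
  have h2 : ∑ i : Fin (b + 1), d (Sum.inr i) = 1 := by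
    have h3 := congrArg Prod.snd h1
    rw [Fintype.sum_sum_type] at h3
    simpa [wt, Prod.snd_sum] using h3
  obtain ⟨i, hi⟩ : ∃ i : Fin (b + 1), d (Sum.inr i) ≠ 0 := by
    by_contra hcon
    push Not at hcon
    rw [Finset.sum_eq_zero fun i _ => hcon i] at h2
    exact zero_ne_one h2
  have h4 : monomial d (coeff d f) = monomial (d - Finsupp.single (Sum.inr i) 1) (coeff d f) *
      X (Sum.inr i) := by
    rw [X, monomial_mul, mul_one, tsub_add_cancel_of_le]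
    rw [Finsupp.single_le_iff]
    exact Nat.one_le_iff_ne_zero.2 hi
  rw [h4]
  exact Q.mul_mem_left _ (h i)

theorem exists_inl {Q : Ideal (Co a b)} (hr : Rel Q) : ∃ i, (X (Sum.inl i) : Co a b) ∉ Q := by
  by_contra hcon
  push Not at hcon
  exact hr 1 0 (mem_of_inl hcon)

theorem exists_inr {Q : Ideal (Co a b)} (hr : Rel Q) : ∃ i, (X (Sum.inr i) : Co a b) ∉ Q := by
  by_contra hcon
  push Not at hcon
  exact hr 0 1 (mem_of_inr hcon)

theorem col_eq {Q : Ideal (Co a b)} (hQ : Q.IsPrime) {x : Co a b} (hx : x ∉ Q) : col Q x = Q := by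
  ext f
  rw [mem_col]
  exact ⟨fun h => (hQ.mem_or_mem h).resolve_left hx, fun h => Q.mul_mem_left _ h⟩

/-- the Hilbert function of `Q + (x)` is eventually constant -/
theorem const_of {Q : Ideal (Co a b)} (hh : BHom Q)
    (hpt : ∀ Q' : Ideal (Co a b), Q'.IsPrime → BHom Q' → Rel Q' → Q < Q' →
      ∃ c : ℤ, Lin Q' 0 0 c) {x : Co a b} {c e : ℕ} (hx : x ∈ bh a b c e) (hxQ : x ∉ Q) :
    ∃ (n0 k : ℕ), ∀ u v : ℕ, n0 ≤ u → n0 ≤ v → hf (Q ⊔ Ideal.span {x}) u v = k := by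
  have htop : BHom (⊤ : Ideal (Co a b)) := fun _ _ _ => trivial
  obtain ⟨l, hl, hl2⟩ := chain_exists (BHom.sup hh (BHom.span hx)) htop
    (le_top : Q ⊔ Ideal.span {x} ≤ ⊤)
  obtain ⟨n0, h1, h2⟩ := chain_hf hl
  -- each prime has an eventually constant Hilbert function
  have h3 : ∀ t ∈ l, ∃ (n1 k : ℕ), ∀ u v : ℕ, n1 ≤ u → n1 ≤ v → hf t.1 u v = k := by
    intro t ht
    obtain ⟨p1, p2, p3⟩ := hl2 t ht
    by_cases hr : Rel t.1
    · have hlt : Q < t.1 := by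
        refine lt_of_le_of_ne (le_sup_left.trans p3) fun he => hxQ ?_
        rw [he]
        exact p3 (Ideal.mem_sup_right (Ideal.mem_span_singleton_self x))
      obtain ⟨c, n1, h4⟩ := hpt t.1 p1 p2 hr hlt
      refine ⟨n1, hf t.1 n1 n1, fun u v hu hv => ?_⟩
      have h5 := h4 u v hu hv
      have h6 := h4 n1 n1 le_rfl le_rfl
      simp only [Nat.cast_zero, zero_mul, zero_add] at h5 h6
      exact_mod_cast h5.trans h6.symm
    · obtain ⟨n1, h4⟩ := hf_irrel hr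
      exact ⟨n1, 0, h4⟩
  have h4 : ∀ l' : List (Ideal (Co a b) × ℕ × ℕ), (∀ t ∈ l', t ∈ l) →
      ∃ (n1 k : ℕ), ∀ u v : ℕ, n1 ≤ u → n1 ≤ v →
        (l'.map fun t => hf t.1 (u - t.2.1) (v - t.2.2)).sum = k := by
    intro l'
    induction l' with
    | nil => exact fun _ => ⟨0, 0, fun u v _ _ => rfl⟩
    | cons t l' ih =>
      intro ht
      obtain ⟨n1, k1, i1⟩ := ih fun s hs => ht s (List.mem_cons_of_mem _ hs)
      obtain ⟨n2, k2, i2⟩ := h3 t (ht t List.mem_cons_self)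
      refine ⟨n1 + n2 + t.2.1 + t.2.2, k2 + k1, fun u v hu hv => ?_⟩
      rw [List.map_cons, List.sum_cons, i1 u v (by omega) (by omega), i2 _ _ (by omega) (by omega)]
  obtain ⟨n1, k, h5⟩ := h4 l fun t ht => ht
  refine ⟨n0 + n1, k, fun u v hu hv => ?_⟩
  rw [h2 u v (by omega) (by omega), hf_top, h5 u v (by omega) (by omega), zero_add]

theorem step_of {Q : Ideal (Co a b)} (hQ : Q.IsPrime) (hh : BHom Q)
    (hpt : ∀ Q' : Ideal (Co a b), Q'.IsPrime → BHom Q' → Rel Q' → Q < Q' →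
      ∃ c : ℤ, Lin Q' 0 0 c) {x : Co a b} {c e : ℕ} (hx : x ∈ bh a b c e) (hxQ : x ∉ Q) :
    ∃ (n0 k : ℕ), ∀ u v : ℕ, n0 ≤ u → n0 ≤ v → hf Q u v = k + hf Q (u - c) (v - e) := by
  obtain ⟨n1, k, h1⟩ := const_of hh hpt hx hxQ
  have hsup : BHom (Q ⊔ Ideal.span {x}) := BHom.sup hh (BHom.span hx)
  have hstep : Step Q (Q ⊔ Ideal.span {x}) x c e :=
    ⟨hh, hx, rfl, by rw [col_eq hQ hxQ]; exact hQ⟩
  obtain ⟨n0, -, h3⟩ := chain_hf (Chain.cons hstep (Chain.nil _ hsup))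
  refine ⟨n0 + n1, k, fun u v hu hv => ?_⟩
  have h4 := h3 u v (by omega) (by omega)
  rw [List.map_cons, List.map_nil, List.sum_cons, List.sum_nil, add_zero,
    h1 u v (by omega) (by omega)] at h4
  simp only [col_eq hQ hxQ] at h4
  exact h4

end Aux5

open Aux5

/-! ### the theorems -/

theorem lin_of_bounded {Q : Ideal (Co a b)} (hQ : Q.IsPrime) (hh : BHom Q) (hr : Rel Q) (C : ℕ)
    (hC : ∀ u v : ℕ, hf Q u v ≤ C) : ∃ c : ℤ, Lin Q 0 0 c := by
  classical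
  have hex : ∃ k : ℕ, ∀ u v : ℕ, hf Q u v ≤ k := ⟨C, hC⟩
  obtain ⟨k, hk, hmin⟩ : ∃ k : ℕ, (∀ u v : ℕ, hf Q u v ≤ k) ∧
      ∀ k' < k, ¬ ∀ u v : ℕ, hf Q u v ≤ k' :=
    ⟨Nat.find hex, Nat.find_spec hex, fun k' h => Nat.find_min hex h⟩
  obtain ⟨u1, v1, h1⟩ : ∃ u1 v1 : ℕ, hf Q u1 v1 = k := by
    rcases Nat.eq_zero_or_pos k with rfl | hpos
    · exact ⟨0, 0, Nat.le_zero.1 (hk 0 0)⟩
    · have h2 := hmin (k - 1) (by omega)
      push Not at h2
      obtain ⟨u, v, h3⟩ := h2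
      have := hk u v
      exact ⟨u, v, by omega⟩
  refine ⟨(k : ℤ), u1 + v1, fun u v hu hv => ?_⟩
  have h2 := hf_mono hQ hh hr (u := u1) (v := v1) (u' := u) (v' := v) (by omega) (by omega)
  have h3 := hk u v
  have h4 : hf Q u v = k := by omega
  rw [h4]
  simp

theorem lin_of_linear {Q : Ideal (Co a b)} (hQ : Q.IsPrime) (hh : BHom Q) (hr : Rel Q)
    (hpt : ∀ Q' : Ideal (Co a b), Q'.IsPrime → BHom Q' → Rel Q' → Q < Q' →
      ∃ c : ℤ, Lin Q' 0 0 c) :
    ∃ (dA dB : ℕ) (c : ℤ), Lin Q dA dB c := by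
  obtain ⟨i, hi⟩ := exists_inl hr
  obtain ⟨j, hj⟩ := exists_inr hr
  obtain ⟨n1, dA, h1⟩ := step_of hQ hh hpt (X_inl_mem i) hi
  obtain ⟨n2, dB, h2⟩ := step_of hQ hh hpt (X_inr_mem j) hj
  set n0 := n1 + n2 with hn0
  have h3 : ∀ s v : ℕ, n0 ≤ v → hf Q (n0 + s) v = dA * s + hf Q n0 v := by
    intro s v hv
    induction s with
    | zero => simp
    | succ s ih =>
      have h4 := h1 (n0 + (s + 1)) v (by omega) (by omega)
      have e1 : n0 + (s + 1) - 1 = n0 + s := by omega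
      rw [e1, Nat.sub_zero, ih] at h4
      rw [h4]
      ring
  have h4 : ∀ s : ℕ, hf Q n0 (n0 + s) = dB * s + hf Q n0 n0 := by
    intro s
    induction s with
    | zero => simp
    | succ s ih =>
      have h5 := h2 n0 (n0 + (s + 1)) (by omega) (by omega)
      have e1 : n0 + (s + 1) - 1 = n0 + s := by omega
      rw [e1, Nat.sub_zero, ih] at h5
      rw [h5]
      ring
  refine ⟨dA, dB, (hf Q n0 n0 : ℤ) - dA * n0 - dB * n0, n0, fun u v hu hv => ?_⟩
  obtain ⟨s, rfl⟩ := Nat.exists_eq_add_of_le hu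
  obtain ⟨r, rfl⟩ := Nat.exists_eq_add_of_le hv
  rw [h3 s _ (by omega), h4 r]
  push_cast
  ring

/-- the Hilbert function of a proper closed subvariety of a surface -/
theorem surf_lin {P : Ideal (Co a b)} {α β γ : ℝ} (hP : Surf P α β γ) {Q : Ideal (Co a b)}
    (hQ : Q.IsPrime) (hh : BHom Q) (hr : Rel Q) (hPQ : P < Q) :
    ∃ (dA dB : ℕ) (c : ℤ), Lin Q dA dB c := by
  have h1 := hP.growth 1 1 le_rfl le_rfl
  simp only [one_mul, Nat.cast_one, one_pow, mul_one] at h1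
  have h2 : ∀ᶠ t : ℕ in atTop, (hf P t t : ℝ) ≤ (α + 2 * β + γ + 1) * (t : ℝ) ^ 2 := by
    have h3 := h1.eventually (gt_mem_nhds (show α + 2 * β + γ < α + 2 * β + γ + 1 by linarith))
    filter_upwards [h3, eventually_ge_atTop 1] with t ht ht1
    have ht0 : (0 : ℝ) < (t : ℝ) ^ 2 := by
      have : (0 : ℝ) < t := by exact_mod_cast ht1
      positivity
    rw [div_lt_iff₀ ht0] at ht
    have h4 : (0 : ℝ) ≤ hf P t t := Nat.cast_nonneg _
    linarith
  obtain ⟨C', h3⟩ := hf_linear hP.prime hP.hom hQ hh hr hPQ _ h2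
  refine lin_of_linear hQ hh hr fun Q' hQ' hh' hr' hlt => ?_
  obtain ⟨C, h4⟩ := hf_bounded hQ hh hQ' hh' hr' hlt C' h3
  exact lin_of_bounded hQ' hh' hr' C h4

theorem Curv.of_lin {Q : Ideal (Co a b)} (hQ : Q.IsPrime) (hh : BHom Q) {dA dB : ℕ} {c : ℤ}
    (hl : Lin Q dA dB c) (hpos : 0 < dA + dB) : Curv Q dA dB := by
  refine ⟨hQ, hh, fun p q hp hq => ?_, by exact_mod_cast hpos⟩
  obtain ⟨n0, h⟩ := hl
  have h1 : Tendsto (fun t : ℕ => ((dA : ℝ) * p + dB * q) + (c : ℝ) / (t : ℝ)) atTop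
      (𝓝 (((dA : ℝ) * p + dB * q) + 0)) :=
    tendsto_const_nhds.add (tendsto_const_div_atTop_nhds_zero_nat _)
  rw [add_zero] at h1
  refine h1.congr' ?_
  filter_upwards [eventually_ge_atTop n0, eventually_ge_atTop 1] with t ht ht1
  have e1 : n0 ≤ p * t := ht.trans (Nat.le_mul_of_pos_left t hp)
  have e2 : n0 ≤ q * t := ht.trans (Nat.le_mul_of_pos_left t hq)
  have h2 := h (p * t) (q * t) e1 e2
  have h3 : ((hf Q (p * t) (q * t) : ℕ) : ℝ) = dA * (p * t) + dB * (q * t) + c := by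
    have := congrArg (Int.cast : ℤ → ℝ) h2
    push_cast at this
    exact this
  have ht0 : (t : ℝ) ≠ 0 := by
    have : (0 : ℝ) < t := by exact_mod_cast ht1
    exact this.ne'
  rw [h3]
  field_simp

theorem nef_le {P : Ideal (Co a b)} (hnef : Nef P) {Q : Ideal (Co a b)} (hPQ : P ≤ Q)
    (hQ : Q.IsPrime) (hh : BHom Q) {dA dB : ℕ} {c : ℤ} (hl : Lin Q dA dB c) : dB ≤ dA := by
  rcases Nat.eq_zero_or_pos (dA + dB) with h | h
  · omega
  · exact_mod_cast hnef Q dA dB hPQ (Curv.of_lin hQ hh hl h)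

end Pool.Agent.TH279.GR.G5
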